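import Mathlib
import Pool.Agent.W745.Fib.Stm

/-!
Monotonicity of the Fibonacci spectral dimension: reflection and finiteness (parts RF and FN).
-/

set_option autoImplicit false

open Polynomial Set
open scoped ENNReal NNReal

namespace Pool.Agent.W38.FM

open Pool.Agent.W811.Stu Pool.Agent.W745.Fib

/-- (FN) -/
theorem fn (hZ : SZ) : SFn := by
  intro lam hlam s n hn
  obtain ⟨_, h2, _⟩ := hZ lam hlam n hn
  have hcc : (1:ℝ) < cc (lam / 2) := by
    unfold cc
    rw [Real.lt_sqrt (by norm_num)]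
    have : 0 < (lam / 2) ^ 2 := by positivity
    linarith
  have hf := (h2 1 (by rw [abs_one]; exact hcc)).1
  have : Finite {E : ℝ // tr lam n E = 1} := hf
  have := Fintype.ofFinite {E : ℝ // tr lam n E = 1}
  unfold Q
  rw [tsum_fintype]
  exact ENNReal.sum_ne_top.2 (fun _ _ => ENNReal.ofReal_ne_top)

/-- the sign in the reflection -/
noncomputable def sg (n : ℕ) : ℝ := if n % 3 = 0 then 1 else -1

lemma sg_cases (n : ℕ) : sg n = 1 ∨ sg n = -1 := by
  unfold sg; split_ifs <;> simp

lemma sg_add3 (n : ℕ) : sg (n + 3) = sg n := by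
  unfold sg
  have : (n + 3) % 3 = n % 3 := by omega
  rw [this]

lemma sg_mul (n : ℕ) : sg (n + 2) * sg (n + 1) = sg n := by
  unfold sg
  rcases (by omega : n % 3 = 0 ∨ n % 3 = 1 ∨ n % 3 = 2) with h | h | h
  · rw [if_neg (by omega), if_neg (by omega), if_pos (by omega)]; norm_num
  · rw [if_pos (by omega), if_neg (by omega), if_neg (by omega)]; norm_num
  · rw [if_neg (by omega), if_pos (by omega), if_neg (by omega)]; norm_num

lemma tr_neg (lam : ℝ) (n : ℕ) (E : ℝ) : tr (-lam) n E = sg n * tr lam n (-E) := by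
  revert n
  apply ind3
  · simp [tr_zero, sg]
  · simp [tr_one, sg]; ring
  · simp [tr_two, sg]; ring
  · intro n h0 h1 h2
    rw [tr_rec, tr_rec, h0, h1, h2, sg_add3, ← sg_mul n]
    ring

lemma dE_neg (lam : ℝ) (n : ℕ) (E : ℝ) : dE (-lam) n E = -(sg n * dE lam n (-E)) := by
  revert n
  apply ind3
  · simp [dE_zero, sg]
  · simp [dE_one, sg]
  · simp [dE_two, sg]
  · intro n h0 h1 h2
    rw [dE_rec, dE_rec, h0, h1, h2, tr_neg, tr_neg, sg_add3, ← sg_mul n]
    ring

lemma abs_dE_neg (lam : ℝ) (n : ℕ) (E : ℝ) : |dE (-lam) n E| = |dE lam n (-E)| := by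
  rw [dE_neg]
  rcases sg_cases n with h | h <;> rw [h] <;> simp

/-- the negated sum -/
lemma Q_neg (s lam : ℝ) (n : ℕ) : Q s n (-lam) =
    ∑' g : {E : ℝ // tr lam n E = sg n}, ENNReal.ofReal (|dE lam n g| ^ (-s)) := by
  unfold Q
  have hs : sg n * sg n = 1 := by rcases sg_cases n with h | h <;> rw [h] <;> norm_num
  let e : {E : ℝ // tr (-lam) n E = 1} ≃ {E : ℝ // tr lam n E = sg n} :=
    { toFun := fun x => ⟨-x.1, by
        have h := x.2
        rw [tr_neg] at h
        calc tr lam n (-x.1) = (sg n * sg n) * tr lam n (-x.1) := by rw [hs, one_mul]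
          _ = sg n * (sg n * tr lam n (-x.1)) := by ring
          _ = sg n := by rw [h, mul_one]⟩
      invFun := fun x => ⟨-x.1, by
        rw [tr_neg, neg_neg, x.2, hs]⟩
      left_inv := fun x => by simp
      right_inv := fun x => by simp }
  rw [← e.tsum_eq]
  refine tsum_congr (fun x => ?_)
  show _ = ENNReal.ofReal (|dE lam n (-x.1)| ^ (-s))
  rw [abs_dE_neg]

/-- (RF) -/
theorem rf (hDi : SDi) (hZ : SZ) : SRf := by
  intro lam hlam s hs
  have hcc : (1:ℝ) < cc (lam / 2) := by
    unfold cc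
    rw [Real.lt_sqrt (by norm_num)]
    have : 0 < (lam / 2) ^ 2 := by positivity
    linarith
  obtain ⟨C, hC1, hC⟩ := hDi lam hlam 1 one_pos hcc
  refine ⟨Real.toNNReal (C ^ s), fun m hm => ?_⟩
  have hC0 : 0 < C := lt_of_lt_of_le one_pos hC1
  have hCs : 1 ≤ C ^ s := Real.one_le_rpow hC1 hs
  have hK : ((Real.toNNReal (C ^ s) : ℝ≥0) : ℝ≥0∞) = ENNReal.ofReal (C ^ s) := rfl
  rw [hK]
  obtain ⟨hne, _, _⟩ := hZ lam hlam m hm
  obtain ⟨hd, hb⟩ := hC m hm
  rw [Q_neg]
  rcases sg_cases m with h1 | h1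
  · rw [h1]
    have : (1:ℝ≥0∞) ≤ ENNReal.ofReal (C ^ s) := by
      rw [← ENNReal.ofReal_one]; exact ENNReal.ofReal_le_ofReal hCs
    calc (∑' g : {E : ℝ // tr lam m E = 1}, ENNReal.ofReal (|dE lam m g| ^ (-s)))
        = 1 * Q s m lam := by rw [one_mul]; rfl
      _ ≤ _ := mul_le_mul_left this _
  · rw [h1]
    -- the choice of the other endpoint
    have key : ∀ E : {E : ℝ // tr lam m E = -1}, ∃ g : {E : ℝ // tr lam m E = 1},
        (∀ e ∈ Set.uIcc E.1 g.1, |tr lam m e| ≤ 1) := by
      rintro ⟨E, hE⟩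
      obtain ⟨u, v, hu, hv, huv, hI, hcase⟩ := hb E (by rw [hE]; simp)
      rcases hcase with ⟨_, h⟩ | ⟨h, _⟩
      · refine ⟨⟨v, h⟩, fun e he => ?_⟩
        rw [Set.uIcc_of_le hv] at he
        exact hI e ⟨hu.trans he.1, he.2⟩
      · refine ⟨⟨u, h⟩, fun e he => ?_⟩
        rw [Set.uIcc_of_ge hu] at he
        exact hI e ⟨he.1, he.2.trans hv⟩
    choose G hG using key
    have hdne : ∀ e : ℝ, |tr lam m e| ≤ 1 → dE lam m e ≠ 0 := fun e he =>
      hne e (lt_of_le_of_lt he hcc)
    -- no two points with the same value connected inside the band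
    have rolle : ∀ a b : ℝ, a < b → tr lam m a = tr lam m b →
        (∀ e ∈ Set.Icc a b, |tr lam m e| ≤ 1) → False := by
      intro a b hab heq hI
      obtain ⟨c, hc, hc0⟩ := exists_hasDerivAt_eq_zero hab (cont_tr lam m).continuousOn heq
        (fun x _ => hasDeriv_tr lam m x)
      exact hdne c (hI c (Ioo_subset_Icc_self hc)) hc0
    have inj : ∀ x y : {E : ℝ // tr lam m E = -1}, x.1 < y.1 → G x = G y → False := by
      intro x y hxy hgg
      have hx := hG x
      have hy := hG y
      rw [← hgg] at hy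
      set g := G x with hg
      have hgx : g.1 ≠ x.1 := by
        intro h; have h1 := g.2; rw [h, x.2] at h1; norm_num at h1
      have hgy : g.1 ≠ y.1 := by
        intro h; have h1 := g.2; rw [h, y.2] at h1; norm_num at h1
      rcases lt_or_gt_of_ne hgx with h2 | h2
      · -- g < x < y
        refine rolle x.1 y.1 hxy (by rw [x.2, y.2]) (fun e he => hy e ?_)
        rw [Set.uIcc_of_ge (by linarith)]
        exact ⟨by linarith [he.1], he.2⟩
      · rcases lt_or_gt_of_ne hgy with h3 | h3
        · -- x < g < y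
          have hmax : IsLocalMax (tr lam m) g.1 := by
            have hn : Set.Icc x.1 y.1 ∈ nhds g.1 := Icc_mem_nhds h2 h3
            refine Filter.mem_of_superset hn (fun e he => ?_)
            show tr lam m e ≤ tr lam m g.1
            rw [g.2]
            rcases le_total e g.1 with h4 | h4
            · have := hx e (by rw [Set.uIcc_of_le h2.le]; exact ⟨he.1, h4⟩)
              exact (abs_le.1 this).2
            · have := hy e (by rw [Set.uIcc_of_ge h3.le]; exact ⟨h4, he.2⟩)
              exact (abs_le.1 this).2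
          exact hdne g.1 (by rw [g.2]; simp) (hmax.hasDerivAt_eq_zero (hasDeriv_tr lam m g.1))
        · -- x < y < g
          refine rolle x.1 y.1 hxy (by rw [x.2, y.2]) (fun e he => hx e ?_)
          rw [Set.uIcc_of_le (by linarith)]
          exact ⟨he.1, by linarith [he.2]⟩
    have hinj : Function.Injective G := by
      intro x y hxy
      by_contra hne'
      have hne2 : x.1 ≠ y.1 := fun h => hne' (Subtype.ext h)
      rcases lt_or_gt_of_ne hne2 with h | h
      · exact inj x y h hxy
      · exact inj y x h hxy.symm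
    calc (∑' E : {E : ℝ // tr lam m E = -1}, ENNReal.ofReal (|dE lam m E| ^ (-s)))
        ≤ ∑' E : {E : ℝ // tr lam m E = -1},
            ENNReal.ofReal (C ^ s) * ENNReal.ofReal (|dE lam m (G E)| ^ (-s)) := by
          refine ENNReal.tsum_le_tsum (fun E => ?_)
          rw [← ENNReal.ofReal_mul (by positivity)]
          refine ENNReal.ofReal_le_ofReal ?_
          have h3 : |dE lam m (G E)| ≤ C * |dE lam m E| :=
            (hd (G E) E (by rw [Set.uIcc_comm]; exact hG E)).1
          have hpos : 0 < |dE lam m E| := abs_pos.2 (hdne E.1 (by rw [E.2]; simp))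
          have hpos2 : 0 < |dE lam m (G E)| := abs_pos.2 (hdne (G E).1 (by rw [(G E).2]; simp))
          have h4 : (C * |dE lam m E|) ^ (-s) ≤ |dE lam m (G E)| ^ (-s) :=
            Real.rpow_le_rpow_of_nonpos hpos2 h3 (by linarith)
          rw [Real.mul_rpow hC0.le hpos.le] at h4
          have h5 : C ^ s * C ^ (-s) = 1 := by
            rw [← Real.rpow_add hC0]; simp
          calc |dE lam m E| ^ (-s) = C ^ s * (C ^ (-s) * |dE lam m E| ^ (-s)) := by
                rw [← mul_assoc, h5, one_mul]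
            _ ≤ C ^ s * |dE lam m (G E)| ^ (-s) :=
                mul_le_mul_of_nonneg_left h4 (by positivity)
      _ = ENNReal.ofReal (C ^ s) *
            ∑' E : {E : ℝ // tr lam m E = -1}, ENNReal.ofReal (|dE lam m (G E)| ^ (-s)) :=
          ENNReal.tsum_mul_left
      _ ≤ ENNReal.ofReal (C ^ s) * Q s m lam := by
          refine mul_le_mul_right ?_ _
          exact ENNReal.tsum_comp_le_tsum_of_injective hinj
            (fun g : {E : ℝ // tr lam m E = 1} => ENNReal.ofReal (|dE lam m g| ^ (-s)))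

end Pool.Agent.W38.FM
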